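import Mathlib

/-!
# MP_b5276a_an : the symmetric projective square of `c₀` is not almost square

`X = c₀` (real) is ASQ and `⊗̂_{π,s,2} c₀` is not ASQ.  The proof uses the symmetric form of
Grothendieck's inequality (proved below from scratch): every quadratic form of norm `≤ 1` on
`ℓ_∞ⁿ` is dominated by a diagonal form of norm `≤ 648`.
-/

open Filter Topology Set
open scoped BigOperators

namespace Pool.Agent.Results.MP_b5276a_an.SymSquareC0

/-! ### The symmetric Grothendieck inequality -/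

section groth

/-- a sign -/
def sg (b : Bool) : ℝ := if b then 1 else -1

@[simp] lemma sg_true : sg true = 1 := rfl
@[simp] lemma sg_false : sg false = -1 := rfl

/-- Rademacher averages: a finite set `Ω` and functions `X i` on it with prescribed (averaged)
inner products and controlled fourth moments. -/
lemma rad {n : ℕ} (m : ℕ) (x : Fin n → Fin m → ℝ) :
    ∃ (Ω : Type) (_ : Fintype Ω) (_ : Nonempty Ω) (X : Fin n → Ω → ℝ),
      (∀ i j, ∑ ω, X i ω * X j ω = (Fintype.card Ω : ℝ) * ∑ t, x i t * x j t) ∧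
      ∀ i, ∑ ω, X i ω ^ 4 ≤ 3 * (Fintype.card Ω : ℝ) * (∑ t, x i t ^ 2) ^ 2 := by
  induction m with
  | zero =>
    refine ⟨Unit, inferInstance, inferInstance, fun _ _ => 0, ?_, ?_⟩ <;> simp
  | succ m ih =>
    obtain ⟨Ω, hF, hN, X, h1, h2⟩ := ih (fun i t => x i t.castSucc)
    refine ⟨Ω × Bool, inferInstance, inferInstance,
      fun i p => X i p.1 + sg p.2 * x i (Fin.last m), ?_, ?_⟩
    · intro i j
      rw [Fintype.sum_prod_type]
      simp only [Fintype.sum_bool, Fintype.card_prod, Fintype.card_bool, sg_true, sg_false]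
      rw [Fin.sum_univ_castSucc, mul_add, Nat.cast_mul]
      have h3 : ∀ ω : Ω, (X i ω + 1 * x i (Fin.last m)) * (X j ω + 1 * x j (Fin.last m)) +
          (X i ω + -1 * x i (Fin.last m)) * (X j ω + -1 * x j (Fin.last m)) =
          2 * (X i ω * X j ω) + 2 * (x i (Fin.last m) * x j (Fin.last m)) := by
        intro ω; ring
      rw [Finset.sum_congr rfl fun ω _ => h3 ω, Finset.sum_add_distrib, ← Finset.mul_sum, h1 i j]
      simp only [Finset.sum_const, Finset.card_univ, nsmul_eq_mul]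
      push_cast
      ring
    · intro i
      rw [Fintype.sum_prod_type]
      simp only [Fintype.sum_bool, Fintype.card_prod, Fintype.card_bool, sg_true, sg_false]
      have h3 : ∀ ω : Ω, (X i ω + 1 * x i (Fin.last m)) ^ 4 +
          (X i ω + -1 * x i (Fin.last m)) ^ 4 =
          2 * X i ω ^ 4 + 12 * x i (Fin.last m) ^ 2 * (X i ω * X i ω) +
            2 * x i (Fin.last m) ^ 4 := by
        intro ω; ring
      rw [Finset.sum_congr rfl fun ω _ => h3 ω, Finset.sum_add_distrib, Finset.sum_add_distrib,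
        ← Finset.mul_sum, ← Finset.mul_sum, h1 i i, Fin.sum_univ_castSucc]
      simp only [Finset.sum_const, Finset.card_univ, nsmul_eq_mul]
      have h4 := h2 i
      have h5 : ∑ t : Fin m, x i t.castSucc * x i t.castSucc = ∑ t : Fin m, x i t.castSucc ^ 2 :=
        Finset.sum_congr rfl fun t _ => by ring
      rw [h5]
      set S := ∑ t : Fin m, x i t.castSucc ^ 2
      set y := x i (Fin.last m)
      have hc : (0:ℝ) ≤ Fintype.card Ω := Nat.cast_nonneg _
      push_cast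
      nlinarith [mul_nonneg hc (pow_nonneg (sq_nonneg y) 2)]

lemma rad' {n : ℕ} (T : Type) [Fintype T] (x : Fin n → T → ℝ) :
    ∃ (Ω : Type) (_ : Fintype Ω) (_ : Nonempty Ω) (X : Fin n → Ω → ℝ),
      (∀ i j, ∑ ω, X i ω * X j ω = (Fintype.card Ω : ℝ) * ∑ t, x i t * x j t) ∧
      ∀ i, ∑ ω, X i ω ^ 4 ≤ 3 * (Fintype.card Ω : ℝ) * (∑ t, x i t ^ 2) ^ 2 := by
  obtain ⟨Ω, hF, hN, X, h1, h2⟩ := rad (Fintype.card T)
    (fun i t => x i ((Fintype.equivFin T).symm t))
  refine ⟨Ω, hF, hN, X, fun i j => ?_, fun i => ?_⟩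
  · rw [h1 i j]
    congr 1
    exact Equiv.sum_comp (Fintype.equivFin T).symm (fun t => x i t * x j t)
  · have h3 := h2 i
    rw [Equiv.sum_comp (Fintype.equivFin T).symm (fun t => x i t ^ 2)] at h3
    exact h3

/-- the quadratic form of a matrix -/
def q {n : ℕ} (a : Fin n → Fin n → ℝ) (s : Fin n → ℝ) : ℝ := ∑ i, ∑ j, a i j * (s i * s j)

lemma sum_q {n : ℕ} (a : Fin n → Fin n → ℝ) {T : Type} [Fintype T] (x : Fin n → T → ℝ) :
    ∑ t, q a (fun i => x i t) = ∑ i, ∑ j, a i j * ∑ t, x i t * x j t := by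
  unfold q
  rw [Finset.sum_comm]
  refine Finset.sum_congr rfl fun i _ => ?_
  rw [Finset.sum_comm]
  refine Finset.sum_congr rfl fun j _ => ?_
  rw [Finset.mul_sum]

lemma q_smul {n : ℕ} (a : Fin n → Fin n → ℝ) (c : ℝ) (s : Fin n → ℝ) :
    q a (fun i => c * s i) = c ^ 2 * q a s := by
  unfold q
  simp only [Finset.mul_sum]
  refine Finset.sum_congr rfl fun i _ => Finset.sum_congr rfl fun j _ => by ring

lemma q_split {n : ℕ} (a : Fin n → Fin n → ℝ) (U R : Fin n → ℝ) :
    q a (fun i => U i + R i) = q a U + (1/5) * (q a (fun i => (U i + 10 * R i) / 2) -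
      q a (fun i => (U i - 10 * R i) / 2)) + (1/100) * q a (fun i => 10 * R i) := by
  unfold q
  simp only [Finset.mul_sum, ← Finset.sum_add_distrib, ← Finset.sum_sub_distrib]
  refine Finset.sum_congr rfl fun i _ => Finset.sum_congr rfl fun j _ => by ring

/-- `B` is a bound for the values of the form `a` on all systems of vectors of norm at most one. -/
def Bd {n : ℕ} (a : Fin n → Fin n → ℝ) (B : ℝ) : Prop :=
  ∀ (T : Type) (_ : Fintype T) (x : Fin n → T → ℝ), (∀ i, ∑ t, x i t ^ 2 ≤ 1) →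
    |∑ t, q a (fun i => x i t)| ≤ B

lemma inner_le_one {T : Type*} [Fintype T] {x y : T → ℝ} (hx : ∑ t, x t ^ 2 ≤ 1)
    (hy : ∑ t, y t ^ 2 ≤ 1) : |∑ t, x t * y t| ≤ 1 := by
  rw [abs_le]
  have h1 : ∑ t, (x t + y t) ^ 2 = ∑ t, x t ^ 2 + 2 * ∑ t, x t * y t + ∑ t, y t ^ 2 := by
    rw [Finset.mul_sum, ← Finset.sum_add_distrib, ← Finset.sum_add_distrib]
    exact Finset.sum_congr rfl fun t _ => by ring
  have h2 : ∑ t, (x t - y t) ^ 2 = ∑ t, x t ^ 2 - 2 * ∑ t, x t * y t + ∑ t, y t ^ 2 := by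
    rw [Finset.mul_sum, ← Finset.sum_sub_distrib, ← Finset.sum_add_distrib]
    exact Finset.sum_congr rfl fun t _ => by ring
  have h3 : 0 ≤ ∑ t, (x t + y t) ^ 2 := Finset.sum_nonneg fun t _ => sq_nonneg _
  have h4 : 0 ≤ ∑ t, (x t - y t) ^ 2 := Finset.sum_nonneg fun t _ => sq_nonneg _
  constructor <;> linarith

lemma bd_trivial {n : ℕ} (a : Fin n → Fin n → ℝ) : Bd a (∑ i, ∑ j, |a i j|) := by
  intro T _ x hx
  rw [sum_q]
  refine (Finset.abs_sum_le_sum_abs _ _).trans (Finset.sum_le_sum fun i _ => ?_)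
  refine (Finset.abs_sum_le_sum_abs _ _).trans (Finset.sum_le_sum fun j _ => ?_)
  rw [abs_mul]
  have := inner_le_one (hx i) (hx j)
  nlinarith [abs_nonneg (a i j)]

lemma bd_scaled {n : ℕ} {a : Fin n → Fin n → ℝ} {B : ℝ} (hB : Bd a B) {Ω : Type} [Fintype Ω]
    {N : ℝ} (hN : 0 < N) (V : Fin n → Ω → ℝ) (hV : ∀ i, ∑ ω, V i ω ^ 2 ≤ N) :
    |∑ ω, q a (fun i => V i ω)| ≤ N * B := by
  set s : ℝ := (Real.sqrt N)⁻¹ with hs
  have hs2 : s ^ 2 = N⁻¹ := by
    rw [hs, inv_pow, Real.sq_sqrt hN.le]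
  have h1 := hB Ω inferInstance (fun i ω => s * V i ω) (by
    intro i
    simp only [mul_pow, hs2]
    rw [← Finset.mul_sum, inv_mul_le_iff₀ hN]
    linarith [hV i])
  have h2 : ∑ ω, q a (fun i => s * V i ω) = N⁻¹ * ∑ ω, q a (fun i => V i ω) := by
    rw [Finset.mul_sum]
    refine Finset.sum_congr rfl fun ω _ => ?_
    rw [q_smul, hs2]
  rw [h2, abs_mul, abs_of_pos (inv_pos.2 hN), inv_mul_le_iff₀ hN] at h1
  exact h1

lemma improve {n : ℕ} {a : Fin n → Fin n → ℝ}
    (ha : ∀ s : Fin n → ℝ, (∀ i, |s i| ≤ 1) → |q a s| ≤ 1)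
    {B : ℝ} (hB0 : 0 ≤ B) (hB : Bd a B) : Bd a (324 + B / 2) := by
  classical
  intro T _ x hx
  obtain ⟨Ω, hF, hN, X, h1, h2⟩ := rad' T x
  set N : ℝ := (Fintype.card Ω : ℝ) with hNdef
  have hN0 : 0 < N := by
    rw [hNdef]; exact_mod_cast Fintype.card_pos
  -- truncation
  set U : Fin n → Ω → ℝ := fun i ω => if |X i ω| ≤ 18 then X i ω else 0 with hU
  set R : Fin n → Ω → ℝ := fun i ω => X i ω - U i ω with hR
  have hX2 : ∀ i, ∑ ω, X i ω ^ 2 ≤ N := by
    intro i
    have h3 : ∑ ω, X i ω ^ 2 = N * ∑ t, x i t ^ 2 := by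
      have := h1 i i
      simp only [← sq] at this
      exact this
    rw [h3]
    nlinarith [hx i]
  have hX4 : ∀ i, ∑ ω, X i ω ^ 4 ≤ 3 * N := by
    intro i
    refine (h2 i).trans ?_
    have h3 : 0 ≤ ∑ t, x i t ^ 2 := Finset.sum_nonneg fun t _ => sq_nonneg _
    have h4 : (∑ t, x i t ^ 2) ^ 2 ≤ 1 := by nlinarith [hx i]
    nlinarith
  have hU2 : ∀ i, ∑ ω, U i ω ^ 2 ≤ N := by
    intro i
    refine le_trans (Finset.sum_le_sum fun ω _ => ?_) (hX2 i)
    simp only [hU]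
    split_ifs
    · exact le_rfl
    · have := sq_nonneg (X i ω)
      simpa using this
  have hR2 : ∀ i, ∑ ω, (10 * R i ω) ^ 2 ≤ N := by
    intro i
    have h3 : ∑ ω, (10 * R i ω) ^ 2 ≤ ∑ ω, ((100 / 324) * X i ω ^ 4) := by
      refine Finset.sum_le_sum fun ω _ => ?_
      simp only [hR, hU]
      split_ifs with h
      · have : 0 ≤ (100 / 324) * X i ω ^ 4 := by positivity
        simpa using this
      · push Not at h
        have h4 : (18:ℝ) ^ 2 ≤ X i ω ^ 2 := by
          rw [← sq_abs (X i ω)]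
          exact pow_le_pow_left₀ (by norm_num) h.le 2
        nlinarith [sq_nonneg (X i ω)]
    refine h3.trans ?_
    rw [← Finset.mul_sum]
    nlinarith [hX4 i]
  -- the bounds
  have hb1 : |∑ ω, q a (fun i => U i ω)| ≤ N * 324 := by
    refine (Finset.abs_sum_le_sum_abs _ _).trans ?_
    have h3 : ∀ ω, |q a (fun i => U i ω)| ≤ 324 := by
      intro ω
      have h4 : q a (fun i => U i ω) = 324 * q a (fun i => U i ω / 18) := by
        have h5 := q_smul a 18 (fun i => U i ω / 18)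
        have h6 : (fun i => 18 * (U i ω / 18)) = fun i => U i ω := by
          funext i; ring
        rw [h6] at h5
        rw [h5]; norm_num
      rw [h4, abs_mul, abs_of_pos (by norm_num : (0:ℝ) < 324)]
      have h5 := ha (fun i => U i ω / 18) (by
        intro i
        rw [abs_div, abs_of_pos (by norm_num : (0:ℝ) < 18), div_le_one (by norm_num)]
        simp only [hU]
        split_ifs with h
        · exact h
        · simp)
      linarith
    refine (Finset.sum_le_sum fun ω _ => h3 ω).trans ?_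
    simp [hNdef]
  have hb2 : |∑ ω, q a (fun i => (U i ω + 10 * R i ω) / 2)| ≤ N * B := by
    refine bd_scaled hB hN0 (fun i ω => (U i ω + 10 * R i ω) / 2) fun i => ?_
    have h3 : ∑ ω, ((U i ω + 10 * R i ω) / 2) ^ 2 ≤ ∑ ω, ((1/2) * U i ω ^ 2 +
        (1/2) * (10 * R i ω) ^ 2) := by
      refine Finset.sum_le_sum fun ω _ => ?_
      nlinarith [sq_nonneg (U i ω - 10 * R i ω)]
    refine h3.trans ?_
    rw [Finset.sum_add_distrib, ← Finset.mul_sum, ← Finset.mul_sum]
    linarith [hU2 i, hR2 i]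
  have hb3 : |∑ ω, q a (fun i => (U i ω - 10 * R i ω) / 2)| ≤ N * B := by
    refine bd_scaled hB hN0 (fun i ω => (U i ω - 10 * R i ω) / 2) fun i => ?_
    have h3 : ∑ ω, ((U i ω - 10 * R i ω) / 2) ^ 2 ≤ ∑ ω, ((1/2) * U i ω ^ 2 +
        (1/2) * (10 * R i ω) ^ 2) := by
      refine Finset.sum_le_sum fun ω _ => ?_
      nlinarith [sq_nonneg (U i ω + 10 * R i ω)]
    refine h3.trans ?_
    rw [Finset.sum_add_distrib, ← Finset.mul_sum, ← Finset.mul_sum]
    linarith [hU2 i, hR2 i]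
  have hb4 : |∑ ω, q a (fun i => 10 * R i ω)| ≤ N * B :=
    bd_scaled hB hN0 (fun i ω => 10 * R i ω) hR2
  have hmain : N * ∑ t, q a (fun i => x i t) = ∑ ω, q a (fun i => U i ω) +
      (1/5) * (∑ ω, q a (fun i => (U i ω + 10 * R i ω) / 2) -
        ∑ ω, q a (fun i => (U i ω - 10 * R i ω) / 2)) +
      (1/100) * ∑ ω, q a (fun i => 10 * R i ω) := by
    have h3 : ∑ ω, q a (fun i => X i ω) = N * ∑ t, q a (fun i => x i t) := by
      rw [sum_q, sum_q, Finset.mul_sum]
      refine Finset.sum_congr rfl fun i _ => ?_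
      rw [Finset.mul_sum]
      refine Finset.sum_congr rfl fun j _ => ?_
      rw [h1 i j]; ring
    rw [← h3, Finset.mul_sum, mul_sub, Finset.mul_sum, Finset.mul_sum, ← Finset.sum_sub_distrib,
      ← Finset.sum_add_distrib, ← Finset.sum_add_distrib]
    refine Finset.sum_congr rfl fun ω _ => ?_
    have h4 := q_split a (fun i => U i ω) (fun i => R i ω)
    have h5 : (fun i => U i ω + R i ω) = fun i => X i ω := by
      funext i; simp only [hR]; ring
    rw [h5] at h4
    rw [h4]; ring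
  have h5 : |N * ∑ t, q a (fun i => x i t)| ≤ N * (324 + B / 2) := by
    rw [hmain]
    rw [abs_le] at *
    have : 0 ≤ N * B := by positivity
    constructor <;> linarith [hb1.1, hb1.2, hb2.1, hb2.2, hb3.1, hb3.2, hb4.1, hb4.2]
  rw [abs_mul, abs_of_pos hN0] at h5
  exact le_of_mul_le_mul_left h5 hN0

/-- Grothendieck's inequality. -/
lemma groth_ineq {n : ℕ} {a : Fin n → Fin n → ℝ}
    (ha : ∀ s : Fin n → ℝ, (∀ i, |s i| ≤ 1) → |q a s| ≤ 1) : Bd a 648 := by
  set B0 : ℝ := ∑ i, ∑ j, |a i j| with hB0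
  have hB0n : 0 ≤ B0 := Finset.sum_nonneg fun i _ => Finset.sum_nonneg fun j _ => abs_nonneg _
  have h1 : ∀ k : ℕ, Bd a (648 + B0 / 2 ^ k) := by
    intro k
    induction k with
    | zero =>
      intro T _ x hx
      have := bd_trivial a T inferInstance x hx
      simp only [pow_zero, div_one]
      linarith
    | succ k ih =>
      have h2 := improve ha (B := 648 + B0 / 2 ^ k) (by positivity) ih
      have h3 : (324:ℝ) + (648 + B0 / 2 ^ k) / 2 = 648 + B0 / 2 ^ (k+1) := by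
        rw [pow_succ]; ring
      rw [h3] at h2
      exact h2
  intro T _ x hx
  have h2 : Tendsto (fun k : ℕ => 648 + B0 / 2 ^ k) atTop (𝓝 (648 + 0)) := by
    refine tendsto_const_nhds.add ?_
    have h3 : Tendsto (fun k : ℕ => B0 * (1/2 : ℝ) ^ k) atTop (𝓝 (B0 * 0)) :=
      (tendsto_pow_atTop_nhds_zero_of_lt_one (by norm_num) (by norm_num)).const_mul B0
    rw [mul_zero] at h3
    refine h3.congr fun k => ?_
    rw [one_div, inv_pow]; rfl
  rw [add_zero] at h2
  exact ge_of_tendsto' h2 fun k => h1 k T inferInstance x hx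

/-- Domination by a diagonal form. -/
theorem domination {n : ℕ} {a : Fin n → Fin n → ℝ} (hsym : ∀ i j, a i j = a j i)
    (ha : ∀ s : Fin n → ℝ, (∀ i, |s i| ≤ 1) → |q a s| ≤ 1) :
    ∃ d : Fin n → ℝ, (∀ i, 0 ≤ d i) ∧ ∑ i, d i ≤ 648 ∧ ∀ y : Fin n → ℝ, q a y ≤ ∑ i, d i * y i ^ 2 := by
  classical
  set K : Set (Fin n → Fin (n+1) → ℝ) := {x | ∀ i, ∑ t, x i t ^ 2 ≤ 1} with hK
  have hKcl : IsClosed K := by
    simp only [hK, ofPred_forall]
    refine isClosed_iInter fun i => isClosed_le ?_ continuous_const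
    fun_prop
  have hKc : IsCompact K := by
    refine IsCompact.of_isClosed_subset (isCompact_Icc (a := fun _ _ => (-1:ℝ))
      (b := fun _ _ => (1:ℝ))) hKcl ?_
    intro x hx
    have h1 : ∀ i t, |x i t| ≤ 1 := by
      intro i t
      have h2 : x i t ^ 2 ≤ ∑ t, x i t ^ 2 :=
        Finset.single_le_sum (f := fun t => x i t ^ 2) (fun t _ => sq_nonneg _) (Finset.mem_univ t)
      have h3 : x i t ^ 2 ≤ 1 := h2.trans (hx i)
      exact abs_le_one_iff_mul_self_le_one.2 (by rw [← sq]; exact h3)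
    exact ⟨fun i t => (abs_le.1 (h1 i t)).1, fun i t => (abs_le.1 (h1 i t)).2⟩
  have hKne : K.Nonempty := ⟨0, fun i => by simp⟩
  have hcont : Continuous fun x : Fin n → Fin (n+1) → ℝ => ∑ t, q a (fun i => x i t) := by
    unfold q
    fun_prop
  obtain ⟨x, hxK, hmax⟩ := hKc.exists_isMaxOn hKne hcont.continuousOn
  set M : ℝ := ∑ t, q a (fun i => x i t) with hM
  have hM0 : 0 ≤ M := by
    have h1 : ∑ t : Fin (n+1), q a (fun i => (0 : Fin n → Fin (n+1) → ℝ) i t) ≤ M :=
      hmax (show (0 : Fin n → Fin (n+1) → ℝ) ∈ K from fun i => by simp)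
    simpa [q] using h1
  -- scaling
  have hscale : ∀ (w : Fin n → Fin (n+1) → ℝ) (c : ℝ), 0 < c → (∀ i, ∑ t, w i t ^ 2 ≤ c) →
      ∑ t, q a (fun i => w i t) ≤ c * M := by
    intro w c hc hw
    set s : ℝ := (Real.sqrt c)⁻¹ with hs
    have hs2 : s ^ 2 = c⁻¹ := by
      rw [hs, inv_pow, Real.sq_sqrt hc.le]
    have h1 : ∑ t, q a (fun i => s * w i t) ≤ M := hmax (show (fun i t => s * w i t) ∈ K by
      intro i
      simp only [mul_pow, hs2]
      rw [← Finset.mul_sum, inv_mul_le_iff₀ hc]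
      linarith [hw i])
    have h2 : ∑ t, q a (fun i => s * w i t) = c⁻¹ * ∑ t, q a (fun i => w i t) := by
      rw [Finset.mul_sum]
      refine Finset.sum_congr rfl fun ω _ => ?_
      rw [q_smul, hs2]
    rw [h2, inv_mul_le_iff₀ hc] at h1
    exact h1
  -- a unit vector orthogonal to all the `x i`
  obtain ⟨z, hz1, hz⟩ : ∃ z : Fin (n+1) → ℝ, ∑ t, z t ^ 2 = 1 ∧ ∀ i, ∑ t, x i t * z t = 0 := by
    let L : (Fin (n+1) → ℝ) →ₗ[ℝ] (Fin n → ℝ) :=
      { toFun := fun v i => ∑ t, x i t * v t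
        map_add' := fun v w => by
          funext i
          simp [mul_add, Finset.sum_add_distrib]
        map_smul' := fun c v => by
          funext i
          simp only [Pi.smul_apply, smul_eq_mul, RingHom.id_apply, Finset.mul_sum]
          exact Finset.sum_congr rfl fun t _ => by ring }
    have h1 : LinearMap.ker L ≠ ⊥ := LinearMap.ker_ne_bot_of_finrank_lt (by simp)
    obtain ⟨v, hv, hv0⟩ := (Submodule.ne_bot_iff _).1 h1
    have hpos : 0 < ∑ t, v t ^ 2 := by
      rcases (Finset.sum_nonneg fun t (_ : t ∈ (Finset.univ : Finset (Fin (n+1)))) =>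
        sq_nonneg (v t)).lt_or_eq with h | h
      · exact h
      · exfalso
        apply hv0
        have h2 := (Finset.sum_eq_zero_iff_of_nonneg fun t _ => sq_nonneg (v t)).1 h.symm
        funext t
        simpa using h2 t (Finset.mem_univ t)
    set s : ℝ := (Real.sqrt (∑ t, v t ^ 2))⁻¹ with hs
    have hs2 : s ^ 2 = (∑ t, v t ^ 2)⁻¹ := by
      rw [hs, inv_pow, Real.sq_sqrt hpos.le]
    refine ⟨fun t => s * v t, ?_, fun i => ?_⟩
    · simp only [mul_pow]
      rw [← Finset.mul_sum, hs2, inv_mul_cancel₀ hpos.ne']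
    · have h2 : ∑ t, x i t * v t = 0 := congrFun (LinearMap.mem_ker.1 hv) i
      have h3 : ∑ t, x i t * (s * v t) = s * ∑ t, x i t * v t := by
        rw [Finset.mul_sum]
        exact Finset.sum_congr rfl fun t _ => by ring
      rw [h3, h2, mul_zero]
  set d : Fin n → ℝ := fun i => ∑ j, a i j * ∑ t, x i t * x j t with hd
  -- the second order condition
  have key : ∀ (y c : Fin n → ℝ), (∀ i, y i ^ 2 / 2 ≤ c i) → q a y ≤ 2 * ∑ i, d i * c i := by
    intro y c hc
    have hc0 : ∀ i, 0 ≤ c i := fun i => le_trans (by positivity) (hc i)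
    obtain ⟨Y, hY⟩ : ∃ Y : ℝ, ∀ i, c i ^ 2 ≤ Y :=
      ⟨∑ i, c i ^ 2, fun i => Finset.single_le_sum (f := fun i => c i ^ 2)
        (fun i _ => sq_nonneg _) (Finset.mem_univ i)⟩
    set Y' : ℝ := max Y 0 with hY'
    have hY'0 : 0 ≤ Y' := le_max_right _ _
    have hY'1 : ∀ i, c i ^ 2 ≤ Y' := fun i => (hY i).trans (le_max_left _ _)
    set r4 : ℝ := ∑ i, ∑ j, a i j * ((c i * c j) * ∑ t, x i t * x j t) with hr4
    have hval : ∀ τ : ℝ, ∑ t, q a (fun i => (1 - τ ^ 2 * c i) * x i t + τ * y i * z t) =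
        M + τ ^ 2 * (q a y - 2 * ∑ i, d i * c i) + τ ^ 4 * r4 := by
      intro τ
      have e1 : ∀ i j, ∑ t, ((1 - τ ^ 2 * c i) * x i t + τ * y i * z t) *
          ((1 - τ ^ 2 * c j) * x j t + τ * y j * z t) =
          (1 - τ ^ 2 * c i) * (1 - τ ^ 2 * c j) * (∑ t, x i t * x j t) + τ ^ 2 * (y i * y j) := by
        intro i j
        have e2 : ∀ t, ((1 - τ ^ 2 * c i) * x i t + τ * y i * z t) *
          ((1 - τ ^ 2 * c j) * x j t + τ * y j * z t) =
          (1 - τ ^ 2 * c i) * (1 - τ ^ 2 * c j) * (x i t * x j t) +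
          (1 - τ ^ 2 * c i) * τ * y j * (x i t * z t) + (1 - τ ^ 2 * c j) * τ * y i * (x j t * z t) +
          τ ^ 2 * (y i * y j) * z t ^ 2 := by
          intro t; ring
        rw [Finset.sum_congr rfl fun t _ => e2 t, Finset.sum_add_distrib, Finset.sum_add_distrib,
          Finset.sum_add_distrib, ← Finset.mul_sum, ← Finset.mul_sum, ← Finset.mul_sum,
          ← Finset.mul_sum, hz i, hz j, hz1]
        ring
      rw [sum_q a (fun i t => (1 - τ ^ 2 * c i) * x i t + τ * y i * z t)]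
      simp only [e1]
      have e3 : 2 * ∑ i, d i * c i = ∑ i, ∑ j, a i j * ((c i + c j) * ∑ t, x i t * x j t) := by
        have e4 : ∑ i, d i * c i = ∑ i, ∑ j, a i j * (c i * ∑ t, x i t * x j t) := by
          refine Finset.sum_congr rfl fun i _ => ?_
          simp only [hd]
          rw [Finset.sum_mul]
          refine Finset.sum_congr rfl fun j _ => by ring
        have e5 : ∑ i, d i * c i = ∑ i, ∑ j, a i j * (c j * ∑ t, x i t * x j t) := by
          rw [e4, Finset.sum_comm]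
          refine Finset.sum_congr rfl fun i _ => Finset.sum_congr rfl fun j _ => ?_
          rw [hsym j i]
          congr 2
          exact Finset.sum_congr rfl fun t _ => by ring
        rw [two_mul]
        nth_rewrite 1 [e4]
        rw [e5, ← Finset.sum_add_distrib]
        refine Finset.sum_congr rfl fun i _ => ?_
        rw [← Finset.sum_add_distrib]
        refine Finset.sum_congr rfl fun j _ => by ring
      obtain ⟨g, hg⟩ : ∃ g : Fin n → Fin n → ℝ, ∀ i j, ∑ t, x i t * x j t = g i j :=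
        ⟨_, fun _ _ => rfl⟩
      rw [e3, hM, sum_q, hr4, q]
      simp only [hg, Finset.mul_sum, ← Finset.sum_add_distrib, ← Finset.sum_sub_distrib]
      refine Finset.sum_congr rfl fun i _ => Finset.sum_congr rfl fun j _ => by ring
    have hineq : ∀ τ : ℝ, τ ^ 2 * (q a y - 2 * ∑ i, d i * c i) ≤ τ ^ 4 * (Y' * M - r4) := by
      intro τ
      have h1 := hscale (fun i t => (1 - τ ^ 2 * c i) * x i t + τ * y i * z t) (1 + τ ^ 4 * Y')
        (by positivity) (by
          intro i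
          have e2 : ∀ t, ((1 - τ ^ 2 * c i) * x i t + τ * y i * z t) ^ 2 =
            (1 - τ ^ 2 * c i) ^ 2 * (x i t) ^ 2 +
            2 * (1 - τ ^ 2 * c i) * τ * y i * (x i t * z t) +
            τ ^ 2 * (y i) ^ 2 * z t ^ 2 := by
            intro t; ring
          rw [Finset.sum_congr rfl fun t _ => e2 t, Finset.sum_add_distrib, Finset.sum_add_distrib,
            ← Finset.mul_sum, ← Finset.mul_sum, ← Finset.mul_sum, hz i, hz1]
          have e3 : (1 - τ ^ 2 * c i) ^ 2 * ∑ t, x i t ^ 2 ≤ (1 - τ ^ 2 * c i) ^ 2 * 1 :=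
            mul_le_mul_of_nonneg_left (hxK i) (sq_nonneg _)
          have e4 : τ ^ 2 * y i ^ 2 ≤ τ ^ 2 * (2 * c i) :=
            mul_le_mul_of_nonneg_left (by linarith [hc i]) (sq_nonneg _)
          have e5 : τ ^ 4 * c i ^ 2 ≤ τ ^ 4 * Y' :=
            mul_le_mul_of_nonneg_left (hY'1 i) (by positivity)
          nlinarith)
      rw [hval τ] at h1
      linarith
    by_contra hcon
    push Not at hcon
    set G : ℝ := q a y - 2 * ∑ i, d i * c i with hG
    have hG0 : 0 < G := by linarith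
    set W : ℝ := |Y' * M - r4| + 1 with hW
    have hW0 : 0 < W := by positivity
    have h1 := hineq (Real.sqrt (G / (2 * W)))
    have h2 : Real.sqrt (G / (2 * W)) ^ 2 = G / (2 * W) := Real.sq_sqrt (by positivity)
    have h3 : Real.sqrt (G / (2 * W)) ^ 4 = (G / (2 * W)) * (G / (2 * W)) := by
      rw [show (4:ℕ) = 2 + 2 from rfl, pow_add, h2]
    rw [h2, h3, mul_assoc] at h1
    have h4 : G ≤ G / (2 * W) * (Y' * M - r4) := le_of_mul_le_mul_left h1 (by positivity)
    have h5 : G / (2 * W) * (Y' * M - r4) ≤ G / (2 * W) * W := by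
      refine mul_le_mul_of_nonneg_left ?_ (by positivity)
      rw [hW]
      linarith [le_abs_self (Y' * M - r4)]
    have h6 : G / (2 * W) * W = G / 2 := by field_simp
    linarith
  refine ⟨d, fun i => ?_, ?_, fun y => ?_⟩
  · have h1 := key 0 (fun k => if k = i then 1 else 0) (by
      intro k; simp only [Pi.zero_apply]; split_ifs <;> norm_num)
    simp only [q, Pi.zero_apply, mul_zero, Finset.sum_const_zero, mul_ite, mul_one,
      Finset.sum_ite_eq', Finset.mem_univ, if_true] at h1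
    linarith
  · have h1 := groth_ineq ha (Fin (n+1)) inferInstance x hxK
    have h2 : ∑ i, d i = M := by rw [hM, sum_q]
    rw [h2]
    exact (le_abs_self _).trans h1
  · have h1 := key y (fun i => y i ^ 2 / 2) (fun i => le_rfl)
    refine h1.trans (le_of_eq ?_)
    rw [Finset.mul_sum]
    exact Finset.sum_congr rfl fun i _ => by ring

end groth

/-! ### Definitions -/

/-- A Banach space is almost square. -/
def ASQ (X : Type*) [NormedAddCommGroup X] [NormedSpace ℝ X] : Prop :=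
  ∀ (k : ℕ) (x : Fin k → X), (∀ i, ‖x i‖ = 1) → ∀ ε : ℝ, 0 < ε →
    ∃ y : X, ‖y‖ = 1 ∧ ∀ i, ‖x i + y‖ ≤ 1 + ε ∧ ‖x i - y‖ ≤ 1 + ε

section sym

set_option linter.unusedSectionVars false

variable (N : ℕ) (X : Type*) [NormedAddCommGroup X] [NormedSpace ℝ X]

/-- The algebraic symmetric tensor product: the span of the tensors `x ⊗ ⋯ ⊗ x`. -/
noncomputable def symSub : Submodule ℝ (PiTensorProduct ℝ (fun _ : Fin N => X)) :=
  Submodule.span ℝ (range fun x : X => PiTensorProduct.tprod ℝ (fun _ : Fin N => x))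

/-- The algebraic symmetric tensor product, as a type. -/
def Sym : Type _ := symSub N X

noncomputable instance : AddCommGroup (Sym N X) := inferInstanceAs (AddCommGroup (symSub N X))

noncomputable instance : Module ℝ (Sym N X) := inferInstanceAs (Module ℝ (symSub N X))

variable {X}

/-- The elementary symmetric tensor `x ⊗ ⋯ ⊗ x`. -/
noncomputable def pw (x : X) : Sym N X :=
  ⟨PiTensorProduct.tprod ℝ (fun _ : Fin N => x), Submodule.subset_span (mem_range_self x)⟩

/-- The tensor represented by a finite list of pairs `(λ, x)`, that is `∑ λ x ⊗ ⋯ ⊗ x`. -/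
noncomputable def val (L : List (ℝ × X)) : Sym N X := (L.map fun p => p.1 • pw N p.2).sum

/-- The cost `∑ |λ| ‖x‖ ^ N` of a representation. -/
noncomputable def cost (L : List (ℝ × X)) : ℝ := (L.map fun p => |p.1| * ‖p.2‖ ^ N).sum

/-- The symmetric projective norm `π_s`. -/
noncomputable def piNorm (u : Sym N X) : ℝ := sInf {r | ∃ L : List (ℝ × X), u = val N L ∧ r = cost N L}

variable {N}

lemma cost_nonneg (L : List (ℝ × X)) : 0 ≤ cost N L := by
  unfold cost
  apply List.sum_nonneg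
  intro a ha
  obtain ⟨p, _, rfl⟩ := List.mem_map.1 ha
  positivity

lemma val_append (L L' : List (ℝ × X)) : val N (L ++ L') = val N L + val N L' := by
  simp [val]

lemma cost_append (L L' : List (ℝ × X)) : cost N (L ++ L') = cost N L + cost N L' := by
  simp [cost]

lemma val_smul (c : ℝ) (L : List (ℝ × X)) :
    val N (L.map fun p => (c * p.1, p.2)) = c • val N L := by
  induction L with
  | nil => simp [val]
  | cons p L ih =>
    simp only [val, List.map_cons, List.sum_cons, smul_add] at ih ⊢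
    rw [ih, mul_smul]

lemma cost_smul (c : ℝ) (L : List (ℝ × X)) :
    cost N (L.map fun p => (c * p.1, p.2)) = |c| * cost N L := by
  induction L with
  | nil => simp [cost]
  | cons p L ih =>
    simp only [cost, List.map_cons, List.sum_cons, mul_add] at ih ⊢
    rw [ih, abs_mul, mul_assoc]

/-- Induction principle for `Sym`. -/
lemma sym_induction {p : Sym N X → Prop} (h0 : p 0) (hpw : ∀ x, p (pw N x))
    (hadd : ∀ u v, p u → p v → p (u + v)) (hsmul : ∀ (c : ℝ) u, p u → p (c • u)) (u : Sym N X) :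
    p u := by
  obtain ⟨u, hu⟩ := u
  induction hu using Submodule.span_induction with
  | mem x hx => obtain ⟨x, rfl⟩ := hx; exact hpw x
  | zero => exact h0
  | add x y _ _ hx hy => exact hadd _ _ hx hy
  | smul c x _ hx => exact hsmul c _ hx

lemma exists_rep (u : Sym N X) : ∃ L : List (ℝ × X), u = val N L := by
  refine sym_induction (p := fun u => ∃ L : List (ℝ × X), u = val N L) ⟨[], rfl⟩ (fun x => ?_)
    ?_ ?_ u
  · exact ⟨[(1, x)], by simp [val]⟩
  · rintro u v ⟨L, rfl⟩ ⟨L', rfl⟩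
    exact ⟨L ++ L', (val_append L L').symm⟩
  · rintro c u ⟨L, rfl⟩
    exact ⟨_, (val_smul c L).symm⟩

lemma piNorm_bdd (u : Sym N X) : BddBelow {r | ∃ L : List (ℝ × X), u = val N L ∧ r = cost N L} :=
  ⟨0, by rintro _ ⟨L, _, rfl⟩; exact cost_nonneg L⟩

lemma piNorm_le (L : List (ℝ × X)) : piNorm N (val N L) ≤ cost N L :=
  csInf_le (piNorm_bdd _) ⟨L, rfl, rfl⟩

lemma le_piNorm {u : Sym N X} {b : ℝ} (h : ∀ L : List (ℝ × X), u = val N L → b ≤ cost N L) :
    b ≤ piNorm N u := by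
  obtain ⟨L, hL⟩ := exists_rep u
  refine le_csInf ⟨_, L, hL, rfl⟩ ?_
  rintro _ ⟨L', h', rfl⟩
  exact h L' h'

lemma piNorm_nonneg (u : Sym N X) : 0 ≤ piNorm N u := le_piNorm fun L _ => cost_nonneg L

lemma piNorm_add (u v : Sym N X) : piNorm N (u + v) ≤ piNorm N u + piNorm N v := by
  rw [← sub_le_iff_le_add]
  refine le_piNorm fun L hL => ?_
  rw [sub_le_comm]
  refine le_piNorm fun L' hL' => ?_
  rw [sub_le_iff_le_add, add_comm, ← cost_append, hL, hL', ← val_append]
  exact piNorm_le _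

lemma piNorm_smul_le (c : ℝ) (u : Sym N X) : piNorm N (c • u) ≤ |c| * piNorm N u := by
  by_cases hc : c = 0
  · subst hc
    rw [abs_zero, zero_mul, zero_smul]
    exact piNorm_le []
  have hc' : 0 < |c| := abs_pos.2 hc
  rw [← inv_mul_le_iff₀ hc']
  refine le_piNorm fun L hL => ?_
  rw [inv_mul_le_iff₀ hc', hL, ← cost_smul, ← val_smul]
  exact piNorm_le _

lemma piNorm_neg_le (u : Sym N X) : piNorm N (-u) ≤ piNorm N u := by
  have := piNorm_smul_le (-1) u
  simpa using this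

variable (N X)

/-- The seminorm `π_s`. -/
noncomputable def piGroupSeminorm : AddGroupSeminorm (Sym N X) where
  toFun := piNorm N
  map_zero' := le_antisymm (piNorm_le []) (piNorm_nonneg _)
  add_le' := piNorm_add
  neg' := fun u => le_antisymm (piNorm_neg_le u) (by
    have := piNorm_neg_le (-u)
    rwa [neg_neg] at this)

noncomputable instance : SeminormedAddCommGroup (Sym N X) :=
  (piGroupSeminorm N X).toSeminormedAddCommGroup

variable {N X}

lemma norm_def (u : Sym N X) : ‖u‖ = piNorm N u := rfl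

variable (N X)

noncomputable instance : NormedSpace ℝ (Sym N X) where
  norm_smul_le := fun c u => piNorm_smul_le c u

/-- The completed symmetric projective tensor product. -/
abbrev SymProj : Type _ := UniformSpace.Completion (Sym N X)

variable {N X}

/-- the functional given by a multilinear form -/
lemma ext_form (M : MultilinearMap ℝ (fun _ : Fin N => X) ℝ) {C : ℝ} (hC0 : 0 ≤ C)
    (hC : ∀ x, |M fun _ => x| ≤ C * ‖x‖ ^ N) :
    ∃ g : SymProj N X →L[ℝ] ℝ, (∀ x, g (pw N x : Sym N X) = M fun _ => x) ∧ ‖g‖ ≤ C := by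
  let φ : Sym N X →ₗ[ℝ] ℝ := (PiTensorProduct.lift M).comp (symSub N X).subtype
  have hφpw : ∀ x, φ (pw N x) = M fun _ => x := fun x => PiTensorProduct.lift.tprod _
  have hφ : ∀ u, ‖φ u‖ ≤ C * ‖u‖ := by
    intro u
    have hL : ∀ L : List (ℝ × X), ‖φ (val N L)‖ ≤ C * cost N L := by
      intro L
      induction L with
      | nil => simp [val, cost]
      | cons p L ih =>
        simp only [val, cost, List.map_cons, List.sum_cons] at ih ⊢
        rw [map_add, map_smul, hφpw, mul_add]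
        refine (norm_add_le _ _).trans (add_le_add ?_ ih)
        rw [norm_smul, Real.norm_eq_abs, Real.norm_eq_abs]
        have := mul_le_mul_of_nonneg_left (hC p.2) (abs_nonneg p.1)
        linarith
    rcases hC0.lt_or_eq with h | h
    · rw [← inv_mul_le_iff₀ h]
      refine le_piNorm fun L h' => ?_
      rw [inv_mul_le_iff₀ h, h']
      exact hL L
    · obtain ⟨L, rfl⟩ := exists_rep u
      have := hL L
      rw [← h] at this ⊢
      simpa using this
  let e : Sym N X →L[ℝ] SymProj N X := UniformSpace.Completion.toComplL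
  have hdense : DenseRange e := UniformSpace.Completion.denseRange_coe
  have hnorm : ∀ u, ‖φ u‖ ≤ C * ‖e u‖ := by
    intro u
    rw [show ‖e u‖ = ‖u‖ from UniformSpace.Completion.norm_coe u]
    exact hφ u
  refine ⟨φ.extendOfNorm e, fun x => ?_, LinearMap.opNorm_extendOfNorm_le hdense hC0 hnorm⟩
  rw [← hφpw]
  exact LinearMap.extendOfNorm_eq hdense ⟨C, hnorm⟩ (pw N x)

/-- a functional is determined by its values at the elementary tensors -/
lemma ext_unique {g h : SymProj N X →L[ℝ] ℝ} (H : ∀ x, g (pw N x : Sym N X) = h (pw N x : Sym N X)) :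
    g = h := by
  have h1 : ∀ u : Sym N X, g u = h u := by
    intro u
    refine sym_induction (p := fun u => g u = h u) ?_ H ?_ ?_ u
    · rw [UniformSpace.Completion.coe_zero, map_zero, map_zero]
    · intro u v hu hv
      rw [UniformSpace.Completion.coe_add, map_add, map_add, hu, hv]
    · intro c u hu
      rw [UniformSpace.Completion.coe_smul, map_smul, map_smul, hu]
  have h2 : (g : SymProj N X → ℝ) = h :=
    UniformSpace.Completion.denseRange_coe.equalizer g.continuous h.continuous (funext h1)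
  exact DFunLike.coe_injective h2

/-- each functional comes from a multilinear form -/
lemma exists_form (g : SymProj N X →L[ℝ] ℝ) :
    ∃ M : MultilinearMap ℝ (fun _ : Fin N => X) ℝ, ∀ x, g (pw N x : Sym N X) = M fun _ => x := by
  let f : symSub N X →ₗ[ℝ] ℝ := (g : SymProj N X →ₗ[ℝ] ℝ).comp
    (UniformSpace.Completion.toComplL (𝕜 := ℝ) (E := Sym N X) : Sym N X →ₗ[ℝ] SymProj N X)
  obtain ⟨G, hG⟩ := f.exists_extend
  refine ⟨G.compMultilinearMap (PiTensorProduct.tprod ℝ), fun x => ?_⟩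
  have := LinearMap.congr_fun hG (pw N x)
  exact this.symm

lemma norm_pw_le (x : X) : ‖(pw N x : Sym N X)‖ ≤ ‖x‖ ^ N := by
  have h := piNorm_le (N := N) [((1:ℝ), x)]
  simp only [val, cost, List.map_cons, List.map_nil, List.sum_cons, List.sum_nil, add_zero,
    one_smul, abs_one, one_mul] at h
  exact h

end sym

/-! ### Quadratic forms -/

section quad

variable {X : Type*} [NormedAddCommGroup X] [NormedSpace ℝ X]

/-- `P` is a quadratic form. -/
def IsQ (P : X → ℝ) : Prop := ∃ M : MultilinearMap ℝ (fun _ : Fin 2 => X) ℝ, ∀ x, P x = M fun _ => x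

lemma IsQ.add {P Q : X → ℝ} (hP : IsQ P) (hQ : IsQ Q) : IsQ fun x => P x + Q x := by
  obtain ⟨M, hM⟩ := hP
  obtain ⟨M', hM'⟩ := hQ
  refine ⟨M + M', fun x => ?_⟩
  show P x + Q x = _
  rw [hM, hM']; rfl

lemma IsQ.smul {P : X → ℝ} (hP : IsQ P) (c : ℝ) : IsQ fun x => c * P x := by
  obtain ⟨M, hM⟩ := hP
  refine ⟨c • M, fun x => ?_⟩
  show c * P x = _
  rw [hM]; rfl

lemma IsQ.sub {P Q : X → ℝ} (hP : IsQ P) (hQ : IsQ Q) : IsQ fun x => P x - Q x := by
  have := hP.add (hQ.smul (-1))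
  simpa [sub_eq_add_neg] using this

lemma IsQ.mul (φ ψ : X →ₗ[ℝ] ℝ) : IsQ fun x => φ x * ψ x := by
  refine ⟨(MultilinearMap.mkPiAlgebra ℝ (Fin 2) ℝ).compLinearMap ![φ, ψ], fun x => ?_⟩
  simp [MultilinearMap.compLinearMap_apply, Fin.prod_univ_two]

lemma IsQ.sum {ι : Type*} (s : Finset ι) {P : ι → X → ℝ} (hP : ∀ i, IsQ (P i)) :
    IsQ fun x => ∑ i ∈ s, P i x := by
  classical
  induction s using Finset.induction_on with
  | empty => exact ⟨0, fun x => by simp⟩
  | insert a s ha ih =>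
    have := (hP a).add ih
    simpa [Finset.sum_insert ha] using this

lemma bilin (M : MultilinearMap ℝ (fun _ : Fin 2 => X) ℝ) :
    ∃ b : X →ₗ[ℝ] X →ₗ[ℝ] ℝ, ∀ x, (M fun _ => x) = b x x := by
  have hupd : ∀ x z : X, Function.update ![x, 0] 1 z = ![x, z] := by
    intro x z
    funext i
    fin_cases i <;> simp
  refine ⟨LinearMap.mk₂ ℝ (fun x y => M ![x, y]) ?_ ?_ ?_ ?_, fun x => ?_⟩
  · intro x x' y
    exact M.cons_add ![y] x x'
  · intro c x y
    exact M.cons_smul ![y] c x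
  · intro x y y'
    have h := M.map_update_add ![x, 0] 1 y y'
    rw [hupd, hupd, hupd] at h
    exact h
  · intro c x y
    have h := M.map_update_smul ![x, 0] 1 c y
    rw [hupd, hupd] at h
    exact h
  · show _ = M ![x, x]
    congr 1
    funext i
    fin_cases i <;> rfl

/-- `g` represents the quadratic form `P`. -/
def Rep (g : SymProj 2 X →L[ℝ] ℝ) (P : X → ℝ) : Prop := ∀ x, g (pw 2 x : Sym 2 X) = P x

lemma exists_rep_form {P : X → ℝ} (hP : IsQ P) {C : ℝ} (hC0 : 0 ≤ C)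
    (hC : ∀ x, |P x| ≤ C * ‖x‖ ^ 2) : ∃ g : SymProj 2 X →L[ℝ] ℝ, Rep g P ∧ ‖g‖ ≤ C := by
  obtain ⟨M, hM⟩ := hP
  obtain ⟨g, h1, h2⟩ := ext_form M hC0 (fun x => by rw [← hM]; exact hC x)
  exact ⟨g, fun x => by rw [h1, hM], h2⟩

lemma Rep.unique {g h : SymProj 2 X →L[ℝ] ℝ} {P : X → ℝ} (hg : Rep g P) (hh : Rep h P) : g = h :=
  ext_unique fun x => by rw [hg, hh]

lemma Rep.norm_le {g : SymProj 2 X →L[ℝ] ℝ} {P : X → ℝ} (hg : Rep g P) {C : ℝ} (hC0 : 0 ≤ C)
    (hC : ∀ x, |P x| ≤ C * ‖x‖ ^ 2) : ‖g‖ ≤ C := by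
  obtain ⟨M, hM⟩ := exists_form g
  obtain ⟨h, h1, h2⟩ := ext_form M hC0 (fun x => by rw [← hM, hg]; exact hC x)
  rw [ext_unique (g := g) (h := h) fun x => by rw [hM, h1]]
  exact h2

/-- the polar form at a vector is small: continuity of quadratic forms -/
lemma quad_cont {P : X → ℝ} (hP : IsQ P) (hb : ∀ x, |P x| ≤ ‖x‖ ^ 2) {x : X} {z : ℕ → X}
    (hz : Tendsto (fun n => ‖z n - x‖) atTop (𝓝 0)) : Tendsto (fun n => P (z n)) atTop (𝓝 (P x)) := by
  obtain ⟨M, hM⟩ := hP
  obtain ⟨b, hb'⟩ := bilin M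
  have hPb : ∀ x, P x = b x x := fun x => by rw [hM, hb']
  have key : ∀ (τ : ℝ), 0 < τ → ∀ s : X, |P (x + s) - P x| ≤ (τ * ‖x‖ + τ⁻¹ * ‖s‖) ^ 2 + ‖s‖ ^ 2 := by
    intro τ hτ s
    have h1 : P (x + s) - P x = (1/2) * (P (τ • x + τ⁻¹ • s) - P (τ • x - τ⁻¹ • s)) + P s := by
      simp only [hPb, map_add, map_sub, map_smul, LinearMap.add_apply, LinearMap.sub_apply,
        LinearMap.smul_apply, smul_eq_mul]
      field_simp
      ring
    have h2 := hb (τ • x + τ⁻¹ • s)
    have h3 := hb (τ • x - τ⁻¹ • s)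
    have h4 := hb s
    have h5 : ‖τ • x + τ⁻¹ • s‖ ≤ τ * ‖x‖ + τ⁻¹ * ‖s‖ := by
      refine (norm_add_le _ _).trans (le_of_eq ?_)
      rw [norm_smul, norm_smul, Real.norm_of_nonneg hτ.le, Real.norm_of_nonneg (inv_pos.2 hτ).le]
    have h6 : ‖τ • x - τ⁻¹ • s‖ ≤ τ * ‖x‖ + τ⁻¹ * ‖s‖ := by
      refine (norm_sub_le _ _).trans (le_of_eq ?_)
      rw [norm_smul, norm_smul, Real.norm_of_nonneg hτ.le, Real.norm_of_nonneg (inv_pos.2 hτ).le]
    have h7 : ‖τ • x + τ⁻¹ • s‖ ^ 2 ≤ (τ * ‖x‖ + τ⁻¹ * ‖s‖) ^ 2 :=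
      pow_le_pow_left₀ (norm_nonneg _) h5 2
    have h8 : ‖τ • x - τ⁻¹ • s‖ ^ 2 ≤ (τ * ‖x‖ + τ⁻¹ * ‖s‖) ^ 2 :=
      pow_le_pow_left₀ (norm_nonneg _) h6 2
    rw [h1]
    rw [abs_le] at *
    constructor <;> linarith [h2.1, h2.2, h3.1, h3.2, h4.1, h4.2]
  rw [Metric.tendsto_atTop]
  intro ε hε
  -- choose τ
  obtain ⟨τ, hτ, hτ1⟩ : ∃ τ : ℝ, 0 < τ ∧ τ * ‖x‖ ≤ Real.sqrt ε / 4 := by
    refine ⟨Real.sqrt ε / 4 / (‖x‖ + 1), by positivity, ?_⟩
    rw [div_mul_eq_mul_div, div_le_iff₀ (by positivity)]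
    have : 0 ≤ Real.sqrt ε / 4 := by positivity
    nlinarith [norm_nonneg x]
  have hsm : 0 < min (τ * (Real.sqrt ε / 4)) (Real.sqrt ε / 4) := by positivity
  obtain ⟨N, hN⟩ := (Metric.tendsto_atTop.1 hz) _ hsm
  refine ⟨N, fun n hn => ?_⟩
  have h1 := hN n hn
  rw [Real.dist_eq, sub_zero, abs_of_nonneg (norm_nonneg _)] at h1
  have h2 : ‖z n - x‖ < τ * (Real.sqrt ε / 4) := h1.trans_le (min_le_left _ _)
  have h3 : ‖z n - x‖ < Real.sqrt ε / 4 := h1.trans_le (min_le_right _ _)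
  have h4 := key τ hτ (z n - x)
  rw [add_sub_cancel] at h4
  rw [Real.dist_eq]
  have h5 : τ⁻¹ * ‖z n - x‖ ≤ Real.sqrt ε / 4 := by
    rw [inv_mul_le_iff₀ hτ]; exact h2.le
  have hsq : Real.sqrt ε ^ 2 = ε := Real.sq_sqrt hε.le
  have h6 : 0 ≤ τ * ‖x‖ := by positivity
  have h7 : 0 ≤ τ⁻¹ * ‖z n - x‖ := by positivity
  have h8 : (τ * ‖x‖ + τ⁻¹ * ‖z n - x‖) ^ 2 ≤ (Real.sqrt ε / 2) ^ 2 :=
    pow_le_pow_left₀ (by positivity) (by linarith) 2
  have h9 : ‖z n - x‖ ^ 2 ≤ (Real.sqrt ε / 4) ^ 2 := pow_le_pow_left₀ (norm_nonneg _) h3.le 2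
  nlinarith

/-- the basic test -/
lemma test {y : SymProj 2 X} {u : X} {ε : ℝ} (h1 : ‖((pw 2 u : Sym 2 X) : SymProj 2 X) + y‖ ≤ 1 + ε)
    (h2 : ‖((pw 2 u : Sym 2 X) : SymProj 2 X) - y‖ ≤ 1 + ε) {g : SymProj 2 X →L[ℝ] ℝ} {P : X → ℝ}
    (hg : Rep g P) {C : ℝ} (hC0 : 0 ≤ C) (hC : ∀ x, |P x| ≤ C * ‖x‖ ^ 2) (hPu : P u = 1) :
    |g y| ≤ C * (1 + ε) - 1 := by
  have hn := hg.norm_le hC0 hC
  have h3 : g ((pw 2 u : Sym 2 X) : SymProj 2 X) = 1 := by rw [hg, hPu]
  have h4 : g (((pw 2 u : Sym 2 X) : SymProj 2 X) + y) ≤ C * (1 + ε) := by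
    refine (Real.le_norm_self _).trans ((g.le_opNorm _).trans ?_)
    gcongr
  have h5 : g (((pw 2 u : Sym 2 X) : SymProj 2 X) - y) ≤ C * (1 + ε) := by
    refine (Real.le_norm_self _).trans ((g.le_opNorm _).trans ?_)
    gcongr
  rw [map_add, h3] at h4
  rw [map_sub, h3] at h5
  rw [abs_le]
  constructor <;> linarith

end quad

/-! ### The space `c₀` -/

section c0

/-- The Banach space `c₀` of real null sequences. -/
abbrev C0 : Type := ZeroAtInftyContinuousMap ℕ ℝ

lemma norm_le_of {x : C0} {C : ℝ} (hC : 0 ≤ C) (h : ∀ k, |x k| ≤ C) : ‖x‖ ≤ C := by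
  rw [← ZeroAtInftyContinuousMap.norm_toBCF_eq_norm, BoundedContinuousFunction.norm_le hC]
  exact h

lemma abs_le_norm (x : C0) (k : ℕ) : |x k| ≤ ‖x‖ := by
  rw [← ZeroAtInftyContinuousMap.norm_toBCF_eq_norm]
  exact x.toBCF.norm_coe_le_norm k

lemma tendsto_c0 (x : C0) : Tendsto x atTop (𝓝 0) := by
  have := x.zero_at_infty'
  rw [cocompact_eq_cofinite, Nat.cofinite_eq_atTop] at this
  exact this

/-- The unit vectors. -/
def e (n : ℕ) : C0 where
  toFun := fun k => if k = n then 1 else 0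
  continuous_toFun := continuous_of_discreteTopology
  zero_at_infty' := by
    rw [cocompact_eq_cofinite, Nat.cofinite_eq_atTop]
    refine tendsto_const_nhds.congr' ?_
    filter_upwards [eventually_gt_atTop n] with k hk
    rw [if_neg (by omega)]

lemma e_apply (n k : ℕ) : e n k = if k = n then 1 else 0 := rfl

/-- The coordinate functionals. -/
def ev (k : ℕ) : C0 →ₗ[ℝ] ℝ where
  toFun := fun x => x k
  map_add' := fun _ _ => rfl
  map_smul' := fun _ _ => rfl

lemma ev_apply (k : ℕ) (x : C0) : ev k x = x k := rfl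

/-- Vectors supported in `{1, …, n}`. -/
noncomputable def comb {n : ℕ} (s : Fin n → ℝ) : C0 := ∑ i, s i • e (i + 1)

lemma comb_apply {n : ℕ} (s : Fin n → ℝ) (k : ℕ) :
    comb s k = ∑ i : Fin n, s i * (if k = i + 1 then 1 else 0) := by
  rw [← ev_apply, comb, map_sum]
  refine Finset.sum_congr rfl fun i _ => ?_
  rw [map_smul, ev_apply, e_apply, smul_eq_mul]

lemma comb_zero {n : ℕ} (s : Fin n → ℝ) : comb s 0 = 0 := by
  rw [comb_apply]
  refine Finset.sum_eq_zero fun i _ => ?_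
  rw [if_neg (by omega), mul_zero]

lemma comb_lt {n : ℕ} (s : Fin n → ℝ) (k : Fin n) : comb s (k + 1) = s k := by
  rw [comb_apply, Finset.sum_eq_single k]
  · simp
  · intro i _ hi
    rw [if_neg, mul_zero]
    intro h
    apply hi
    ext
    omega
  · intro h; exact absurd (Finset.mem_univ _) h

lemma comb_ge {n : ℕ} (s : Fin n → ℝ) {k : ℕ} (hk : n < k) : comb s k = 0 := by
  rw [comb_apply]
  refine Finset.sum_eq_zero fun i _ => ?_
  rw [if_neg (by have := i.2; omega), mul_zero]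

lemma norm_add_comb_le {n : ℕ} {c r : ℝ} (hr : 0 ≤ r) (hc : |c| ≤ r) {s : Fin n → ℝ}
    (hs : ∀ i, |s i| ≤ r) : ‖c • e 0 + comb s‖ ≤ r := by
  refine norm_le_of hr fun k => ?_
  rw [ZeroAtInftyContinuousMap.add_apply, ZeroAtInftyContinuousMap.smul_apply, e_apply, smul_eq_mul]
  rcases Nat.eq_zero_or_pos k with rfl | hk
  · rw [comb_zero]; simpa using hc
  · rw [if_neg (by omega), mul_zero, zero_add]
    by_cases h : k ≤ n
    · have h1 := comb_lt s ⟨k - 1, by omega⟩
      simp only at h1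
      rw [show k - 1 + 1 = k by omega] at h1
      rw [h1]
      exact hs _
    · rw [comb_ge s (by omega)]; simpa using hr

lemma norm_comb_le {n : ℕ} {r : ℝ} (hr : 0 ≤ r) {s : Fin n → ℝ}
    (hs : ∀ i, |s i| ≤ r) : ‖comb s‖ ≤ r := by
  have := norm_add_comb_le (n := n) (c := 0) hr (by simpa using hr) hs
  simpa using this

/-- The tail coordinates. -/
def tl (n : ℕ) (x : C0) : Fin n → ℝ := fun i => x (i + 1)

/-- The truncation. -/
noncomputable def R (n : ℕ) (x : C0) : C0 := x 0 • e 0 + comb (tl n x)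

lemma norm_R_le (n : ℕ) (x : C0) : ‖R n x‖ ≤ ‖x‖ :=
  norm_add_comb_le (norm_nonneg _) (abs_le_norm x 0) fun _ => abs_le_norm x _

lemma R_tendsto (x : C0) : Tendsto (fun n => ‖R n x - x‖) atTop (𝓝 0) := by
  rw [Metric.tendsto_atTop]
  intro ε hε
  obtain ⟨N, hN⟩ := Metric.tendsto_atTop.1 (tendsto_c0 x) (ε / 2) (by positivity)
  refine ⟨N, fun n hn => ?_⟩
  rw [Real.dist_eq, sub_zero, abs_of_nonneg (norm_nonneg _)]
  refine lt_of_le_of_lt (norm_le_of (C := ε / 2) (by positivity) fun k => ?_) (by linarith)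
  rw [ZeroAtInftyContinuousMap.sub_apply, R, ZeroAtInftyContinuousMap.add_apply,
    ZeroAtInftyContinuousMap.smul_apply, e_apply, smul_eq_mul]
  rcases Nat.eq_zero_or_pos k with rfl | hk
  · rw [comb_zero]; simp; positivity
  · rw [if_neg (by omega), mul_zero, zero_add]
    by_cases h : k ≤ n
    · have h1 := comb_lt (tl n x) ⟨k - 1, by omega⟩
      simp only [tl] at h1
      rw [show k - 1 + 1 = k by omega] at h1
      rw [show comb (tl n x) k = x k from h1, sub_self, abs_zero]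
      positivity
    · rw [comb_ge _ (by omega), zero_sub, abs_neg]
      have := hN k (by omega)
      rw [Real.dist_eq, sub_zero] at this
      exact this.le

/-- `c₀` is almost square. -/
theorem asq_c0 : ASQ C0 := by
  intro k x hx ε hε
  have h1 : ∀ i, ∀ᶠ n in atTop, |x i n| < ε := by
    intro i
    obtain ⟨N, hN⟩ := Metric.tendsto_atTop.1 (tendsto_c0 (x i)) ε hε
    filter_upwards [eventually_ge_atTop N] with n hn
    have := hN n hn
    rwa [Real.dist_eq, sub_zero] at this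
  obtain ⟨n, hn⟩ := (eventually_all.2 h1).exists
  have hcoord : ∀ i m, |x i m| ≤ 1 := fun i m => by
    have := abs_le_norm (x i) m
    rwa [hx i] at this
  refine ⟨e n, ?_, fun i => ⟨?_, ?_⟩⟩
  · apply le_antisymm
    · refine norm_le_of zero_le_one fun m => ?_
      rw [e_apply]; split_ifs <;> simp
    · have := abs_le_norm (e n) n
      rw [e_apply, if_pos rfl, abs_one] at this
      exact this
  · refine norm_le_of (by positivity) fun m => ?_
    rw [ZeroAtInftyContinuousMap.add_apply, e_apply]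
    by_cases h : m = n
    · rw [if_pos h, h]
      have h2 := hn i
      rw [abs_lt] at h2
      rw [abs_le]; constructor <;> linarith
    · rw [if_neg h, add_zero]
      linarith [hcoord i m]
  · refine norm_le_of (by positivity) fun m => ?_
    rw [ZeroAtInftyContinuousMap.sub_apply, e_apply]
    by_cases h : m = n
    · rw [if_pos h, h]
      have h2 := hn i
      rw [abs_lt] at h2
      rw [abs_le]; constructor <;> linarith
    · rw [if_neg h, sub_zero]
      linarith [hcoord i m]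

lemma sq_bound (x : C0) (k : ℕ) : x k ^ 2 ≤ ‖x‖ ^ 2 := by
  rw [← sq_abs (x k)]
  exact pow_le_pow_left₀ (abs_nonneg _) (abs_le_norm x k) 2

lemma rep_sq_bound (x : C0) : |ev 0 x * ev 0 x| ≤ 1 * ‖x‖ ^ 2 := by
  rw [ev_apply, ← sq, abs_of_nonneg (sq_nonneg _), one_mul]
  exact sq_bound x 0

lemma norm_pw_e : ‖((pw 2 (e 0) : Sym 2 C0) : SymProj 2 C0)‖ = 1 := by
  apply le_antisymm
  · rw [UniformSpace.Completion.norm_coe]
    refine (norm_pw_le (N := 2) (e 0)).trans ?_
    have : ‖e 0‖ ≤ 1 := norm_le_of zero_le_one fun m => by rw [e_apply]; split_ifs <;> simp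
    exact pow_le_one₀ (norm_nonneg _) this
  · obtain ⟨g, hg, hn⟩ := exists_rep_form (IsQ.mul (ev 0) (ev 0)) (C := 1) zero_le_one
      (fun x => rep_sq_bound x)
    have h1 := g.le_opNorm ((pw 2 (e 0) : Sym 2 C0) : SymProj 2 C0)
    rw [hg (e 0)] at h1
    simp only [ev_apply, e_apply] at h1
    have h2 := norm_nonneg ((pw 2 (e 0) : Sym 2 C0) : SymProj 2 C0)
    have h3 : (1:ℝ) ≤ ‖g‖ * ‖((pw 2 (e 0) : Sym 2 C0) : SymProj 2 C0)‖ := by simpa using h1
    nlinarith

section main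

variable {y : SymProj 2 C0} {ε : ℝ}

/-- The form `x₀²`. -/
lemma est_alpha (h1 : ‖((pw 2 (e 0) : Sym 2 C0) : SymProj 2 C0) + y‖ ≤ 1 + ε)
    (h2 : ‖((pw 2 (e 0) : Sym 2 C0) : SymProj 2 C0) - y‖ ≤ 1 + ε) {g : SymProj 2 C0 →L[ℝ] ℝ}
    (hg : Rep g fun x => ev 0 x * ev 0 x) : |g y| ≤ ε := by
  have := test h1 h2 hg zero_le_one rep_sq_bound (by simp [ev_apply, e_apply])
  linarith

/-- Positive forms. -/
lemma est_pos (h1 : ‖((pw 2 (e 0) : Sym 2 C0) : SymProj 2 C0) + y‖ ≤ 1 + ε)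
    (h2 : ‖((pw 2 (e 0) : Sym 2 C0) : SymProj 2 C0) - y‖ ≤ 1 + ε) {Q : C0 → ℝ} {C : ℝ}
    (hC : 0 < C) (hQ0 : ∀ x, 0 ≤ Q x) (hQC : ∀ x, Q x ≤ C * ‖x‖ ^ 2) (hQe : Q (e 0) = 0)
    {g : SymProj 2 C0 →L[ℝ] ℝ} (hg : Rep g Q) : |g y| ≤ 2 * C * ε := by
  obtain ⟨α, hα, -⟩ := exists_rep_form (IsQ.mul (ev 0) (ev 0)) (C := 1) zero_le_one
    (fun x => rep_sq_bound x)
  have hα' := est_alpha h1 h2 hα
  have h3 : Rep (α - C⁻¹ • g) fun x => ev 0 x * ev 0 x - C⁻¹ * Q x := by
    intro x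
    rw [sub_apply, smul_apply, hα x, hg x, smul_eq_mul]
  have h4 := test h1 h2 h3 zero_le_one (by
    intro x
    have h5 : C⁻¹ * Q x ≤ ‖x‖ ^ 2 := by
      rw [inv_mul_le_iff₀ hC]; exact hQC x
    have h6 : 0 ≤ C⁻¹ * Q x := mul_nonneg (inv_pos.2 hC).le (hQ0 x)
    have h7 := rep_sq_bound x
    have h8 : 0 ≤ ev 0 x * ev 0 x := mul_self_nonneg _
    rw [abs_of_nonneg h8] at h7
    rw [abs_le]
    constructor <;> linarith) (by simp [ev_apply, e_apply, hQe])
  rw [sub_apply, smul_apply, smul_eq_mul] at h4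
  have h5 : |C⁻¹ * g y| ≤ 2 * ε := by
    rw [abs_le] at *
    constructor <;> linarith [h4.1, h4.2, hα'.1, hα'.2]
  rw [abs_mul, abs_of_pos (inv_pos.2 hC), inv_mul_le_iff₀ hC] at h5
  linarith

/-- Cross terms. -/
lemma est_cross (h1 : ‖((pw 2 (e 0) : Sym 2 C0) : SymProj 2 C0) + y‖ ≤ 1 + ε)
    (h2 : ‖((pw 2 (e 0) : Sym 2 C0) : SymProj 2 C0) - y‖ ≤ 1 + ε) {ℓ : C0 →ₗ[ℝ] ℝ}
    (hℓ : ∀ x, |ℓ x| ≤ ‖x‖) (hℓe : ℓ (e 0) = 0)
    {g : SymProj 2 C0 →L[ℝ] ℝ} (hg : Rep g fun x => ev 0 x * ℓ x) :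
    |g y| ≤ 10 * ((1 + 1/400) * (1 + ε) - 1 + 3 * ε) := by
  obtain ⟨α, hα, -⟩ := exists_rep_form (IsQ.mul (ev 0) (ev 0)) (C := 1) zero_le_one
    (fun x => rep_sq_bound x)
  have hα' := est_alpha h1 h2 hα
  have hℓ2 : ∀ x, ℓ x * ℓ x ≤ 1 * ‖x‖ ^ 2 := by
    intro x
    rw [← sq, ← sq_abs, one_mul]
    exact pow_le_pow_left₀ (abs_nonneg _) (hℓ x) 2
  obtain ⟨μ, hμ, -⟩ := exists_rep_form (IsQ.mul ℓ ℓ) (C := 1) zero_le_one
    (fun x => by rw [abs_of_nonneg (mul_self_nonneg _)]; exact hℓ2 x)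
  have hμ' := est_pos h1 h2 (C := 1) one_pos (fun x => mul_self_nonneg _) hℓ2
    (by simp [hℓe]) hμ
  have h3 : Rep (α + (1/10:ℝ) • g - μ) fun x => ev 0 x * ev 0 x + (1/10) * (ev 0 x * ℓ x) -
      ℓ x * ℓ x := by
    intro x
    rw [sub_apply, add_apply,
      smul_apply, hα x, hg x, hμ x, smul_eq_mul]
  have h4 := test h1 h2 h3 (C := 1 + 1/400) (by norm_num) (by
    intro x
    have h5 := rep_sq_bound x
    rw [abs_of_nonneg (mul_self_nonneg _)] at h5
    have h6 := hℓ2 x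
    rw [abs_le]
    constructor
    · nlinarith [sq_nonneg (ev 0 x + (1/20) * ℓ x), mul_self_nonneg (ev 0 x)]
    · nlinarith [sq_nonneg (ℓ x - (1/20) * ev 0 x), mul_self_nonneg (ℓ x)])
    (by simp [ev_apply, e_apply, hℓe])
  rw [sub_apply, add_apply, smul_apply,
    smul_eq_mul] at h4
  rw [abs_le] at *
  constructor <;> linarith [h4.1, h4.2, hα'.1, hα'.2, hμ'.1, hμ'.2]

end main

end c0

/-! ### The symmetric square of `c₀` is not almost square -/

section final

lemma claimA {y : SymProj 2 C0} {ε : ℝ}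
    (h1 : ‖((pw 2 (e 0) : Sym 2 C0) : SymProj 2 C0) + y‖ ≤ 1 + ε)
    (h2 : ‖((pw 2 (e 0) : Sym 2 C0) : SymProj 2 C0) - y‖ ≤ 1 + ε) (hε0 : 0 ≤ ε)
    (hε : ε ≤ 1 / 10000) {P : C0 → ℝ} (hP : IsQ P) (hb : ∀ x, |P x| ≤ ‖x‖ ^ 2) (n : ℕ) :
    ∃ g : SymProj 2 C0 →L[ℝ] ℝ, Rep g (fun x => P (R n x)) ∧ ‖g‖ ≤ 1 ∧ |g y| ≤ 2 / 5 := by
  obtain ⟨M, hM⟩ := hP
  obtain ⟨b, hb'⟩ := bilin M
  have hPb : ∀ x, P x = b x x := fun x => by rw [hM, hb']
  set a : Fin n → Fin n → ℝ := fun i j =>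
    (b (e (i + 1)) (e (j + 1)) + b (e (j + 1)) (e (i + 1))) / 2 with ha
  have hsym : ∀ i j, a i j = a j i := fun i j => by simp only [ha]; ring
  have hq : ∀ s : Fin n → ℝ, q a s = P (comb s) := by
    intro s
    have e1 : P (comb s) = ∑ i, ∑ j, s i * s j * b (e (i + 1)) (e (j + 1)) := by
      have e0 : ∀ z, b (comb s) z = ∑ i, s i * b (e (i + 1)) z := by
        intro z
        rw [comb, map_sum, LinearMap.sum_apply]
        refine Finset.sum_congr rfl fun i _ => ?_
        rw [map_smul, LinearMap.smul_apply, smul_eq_mul]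
      have e0' : ∀ z, b z (comb s) = ∑ j, s j * b z (e (j + 1)) := by
        intro z
        rw [comb, map_sum]
        refine Finset.sum_congr rfl fun i _ => ?_
        rw [map_smul, smul_eq_mul]
      rw [hPb, e0]
      refine Finset.sum_congr rfl fun i _ => ?_
      rw [e0', Finset.mul_sum]
      refine Finset.sum_congr rfl fun j _ => ?_
      ring
    have e2 : P (comb s) = ∑ i, ∑ j, s i * s j * b (e (j + 1)) (e (i + 1)) := by
      rw [e1, Finset.sum_comm]
      refine Finset.sum_congr rfl fun i _ => Finset.sum_congr rfl fun j _ => by ring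
    have e3 : P (comb s) = (1/2) * (P (comb s) + P (comb s)) := by ring
    rw [e3]
    nth_rewrite 1 [e1]
    rw [e2, ← Finset.sum_add_distrib, Finset.mul_sum]
    refine Finset.sum_congr rfl fun i _ => ?_
    rw [← Finset.sum_add_distrib, Finset.mul_sum]
    refine Finset.sum_congr rfl fun j _ => ?_
    simp only [ha]; ring
  have hbd : ∀ s : Fin n → ℝ, (∀ i, |s i| ≤ 1) → |q a s| ≤ 1 := by
    intro s hs
    rw [hq]
    exact (hb _).trans (pow_le_one₀ (norm_nonneg _) (norm_comb_le zero_le_one hs))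
  obtain ⟨d, hd0, hd1, hd2⟩ := domination hsym hbd
  -- the cross term
  set L : C0 →ₗ[ℝ] ℝ := ∑ i : Fin n, (b (e 0) (e (i + 1)) + b (e (i + 1)) (e 0)) • ev (i + 1) with hL
  have hLx : ∀ x, L x = b (e 0) (comb (tl n x)) + b (comb (tl n x)) (e 0) := by
    intro x
    rw [hL, LinearMap.sum_apply, comb, map_sum, map_sum, LinearMap.sum_apply,
      ← Finset.sum_add_distrib]
    refine Finset.sum_congr rfl fun i _ => ?_
    rw [LinearMap.smul_apply, map_smul, map_smul, LinearMap.smul_apply, ev_apply, smul_eq_mul,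
      smul_eq_mul, smul_eq_mul, tl]
    ring
  have hsplit : ∀ x, P (R n x) = P (e 0) * (ev 0 x * ev 0 x) + ev 0 x * L x + q a (tl n x) := by
    intro x
    rw [hq, hLx, R, hPb, hPb, hPb, ev_apply]
    simp only [map_add, map_smul, LinearMap.add_apply, LinearMap.smul_apply, smul_eq_mul]
    ring
  have hLb : ∀ x, |L x| ≤ ‖x‖ := by
    intro x
    rcases (norm_nonneg x).lt_or_eq with hr | hr
    · set r := ‖x‖ with hrdef
      have e1 : r * L x = (1/2) * (P (r • e 0 + comb (tl n x)) -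
          P (r • e 0 + comb (fun i => -(tl n x i)))) := by
        have e2 : comb (fun i => -(tl n x i)) = - comb (tl n x) := by
          refine ZeroAtInftyContinuousMap.ext fun k => ?_
          rw [ZeroAtInftyContinuousMap.neg_apply, comb_apply, comb_apply,
            ← Finset.sum_neg_distrib]
          exact Finset.sum_congr rfl fun i _ => by ring
        rw [e2, hLx, hPb, hPb]
        simp only [map_add, map_smul, map_neg, LinearMap.add_apply, LinearMap.smul_apply,
          LinearMap.neg_apply, smul_eq_mul]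
        ring
      have hr1 : |r| ≤ r := by rw [abs_of_pos hr]
      have e3 := (hb (r • e 0 + comb (tl n x))).trans
        (pow_le_pow_left₀ (norm_nonneg _) (norm_add_comb_le hr.le hr1
          (fun i => abs_le_norm x _)) 2)
      have e4 := (hb (r • e 0 + comb (fun i => -(tl n x i)))).trans
        (pow_le_pow_left₀ (norm_nonneg _) (norm_add_comb_le hr.le hr1
          (fun i => by rw [abs_neg]; exact abs_le_norm x _)) 2)
      have e5 : |r * L x| ≤ r * r := by
        rw [e1]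
        rw [abs_le] at *
        constructor <;> nlinarith [e3.1, e3.2, e4.1, e4.2]
      rw [abs_mul, abs_of_pos hr] at e5
      exact le_of_mul_le_mul_left e5 hr
    · have hx : x = 0 := norm_eq_zero.1 hr.symm
      rw [hx, map_zero, abs_zero, norm_zero]
  have hLe : L (e 0) = 0 := by
    rw [hL, LinearMap.sum_apply]
    refine Finset.sum_eq_zero fun i _ => ?_
    rw [LinearMap.smul_apply, ev_apply, e_apply, if_neg (by omega), smul_zero]
  have htle : ∀ i, tl n (e 0) i = 0 := fun i => by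
    rw [tl, e_apply, if_neg (by omega)]
  -- the quadratic forms
  have hQq : IsQ fun x => q a (tl n x) := by
    unfold q
    refine IsQ.sum _ fun i => IsQ.sum _ fun j => ?_
    exact (IsQ.mul (ev (i + 1)) (ev (j + 1))).smul (a i j)
  have hQD : IsQ fun x => ∑ i, d i * tl n x i ^ 2 := by
    refine IsQ.sum _ fun i => ?_
    have := (IsQ.mul (ev (i + 1)) (ev (i + 1))).smul (d i)
    simp only [← sq] at this
    exact this
  have hD0 : ∀ x : C0, 0 ≤ ∑ i, d i * tl n x i ^ 2 := fun x =>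
    Finset.sum_nonneg fun i _ => mul_nonneg (hd0 i) (sq_nonneg _)
  have hD1 : ∀ x : C0, ∑ i, d i * tl n x i ^ 2 ≤ 648 * ‖x‖ ^ 2 := by
    intro x
    refine (Finset.sum_le_sum (g := fun i => d i * ‖x‖ ^ 2) fun i _ =>
      mul_le_mul_of_nonneg_left (sq_bound x _) (hd0 i)).trans ?_
    rw [← Finset.sum_mul]
    exact mul_le_mul_of_nonneg_right hd1 (sq_nonneg _)
  have hq1 : ∀ x : C0, |q a (tl n x)| ≤ ‖x‖ ^ 2 := by
    intro x
    rw [hq]
    exact (hb _).trans (pow_le_pow_left₀ (norm_nonneg _)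
      (norm_comb_le (norm_nonneg x) fun i => abs_le_norm x _) 2)
  have hQ2 := hQD.sub hQq
  obtain ⟨α, hα, -⟩ := exists_rep_form (IsQ.mul (ev 0) (ev 0)) (C := 1) zero_le_one
    (fun x => rep_sq_bound x)
  obtain ⟨lam, hlam, -⟩ := exists_rep_form (IsQ.mul (ev 0) L) (C := 1) zero_le_one
    (fun x => by
      rw [abs_mul, one_mul, sq]
      exact mul_le_mul (abs_le_norm x 0) (hLb x) (abs_nonneg _) (norm_nonneg _))
  obtain ⟨gD, hgD, -⟩ := exists_rep_form hQD (C := 648) (by norm_num)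
    (fun x => by rw [abs_of_nonneg (hD0 x)]; exact hD1 x)
  have hQ20 : ∀ x : C0, 0 ≤ ∑ i, d i * tl n x i ^ 2 - q a (tl n x) := fun x =>
    sub_nonneg.2 (hd2 (tl n x))
  have hQ21 : ∀ x : C0, ∑ i, d i * tl n x i ^ 2 - q a (tl n x) ≤ 649 * ‖x‖ ^ 2 := by
    intro x
    have := hD1 x
    have := (abs_le.1 (hq1 x)).1
    linarith
  obtain ⟨g2, hg2, -⟩ := exists_rep_form hQ2 (C := 649) (by norm_num)
    (fun x => by rw [abs_of_nonneg (hQ20 x)]; exact hQ21 x)
  have hrep : Rep (P (e 0) • α + lam + gD - g2) fun x => P (R n x) := by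
    intro x
    rw [sub_apply, add_apply, add_apply, smul_apply, hα x, hlam x, hgD x, hg2 x, smul_eq_mul]
    show P (e 0) * (ev 0 x * ev 0 x) + ev 0 x * L x + ∑ i, d i * tl n x i ^ 2 -
      (∑ i, d i * tl n x i ^ 2 - q a (tl n x)) = P (R n x)
    rw [hsplit]
    ring
  refine ⟨_, hrep, hrep.norm_le zero_le_one (fun x => ?_), ?_⟩
  · rw [one_mul]
    exact (hb _).trans (pow_le_pow_left₀ (norm_nonneg _) (norm_R_le n x) 2)
  · have b1 := est_alpha h1 h2 hα
    have b2 := est_cross h1 h2 hLb hLe hlam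
    have b3 := est_pos h1 h2 (C := 648) (by norm_num) hD0 hD1 (by
      simp [htle]) hgD
    have b4 := est_pos h1 h2 (C := 649) (by norm_num) hQ20 hQ21 (by
      simp [htle, q]) hg2
    have b5 : |P (e 0)| ≤ 1 := by
      refine (hb _).trans (pow_le_one₀ (norm_nonneg _) ?_)
      exact norm_le_of zero_le_one fun m => by rw [e_apply]; split_ifs <;> simp
    have b6 : |P (e 0) * α y| ≤ ε := by
      rw [abs_mul]
      nlinarith [abs_nonneg (P (e 0)), abs_nonneg (α y)]
    rw [sub_apply, add_apply, add_apply, smul_apply, smul_eq_mul]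
    rw [abs_le] at b2 b3 b4 b6 ⊢
    constructor <;> nlinarith [b2.1, b2.2, b3.1, b3.2, b4.1, b4.2, b6.1, b6.2]

lemma claimB {y : SymProj 2 C0} {g : SymProj 2 C0 →L[ℝ] ℝ} (hg1 : ‖g‖ ≤ 1) {P : C0 → ℝ}
    (hg : Rep g P) (hP : IsQ P) (hb : ∀ x, |P x| ≤ ‖x‖ ^ 2) {f : ℕ → SymProj 2 C0 →L[ℝ] ℝ}
    (hf : ∀ n, Rep (f n) fun x => P (R n x)) (hf1 : ∀ n, ‖f n‖ ≤ 1) :
    Tendsto (fun n => f n y) atTop (𝓝 (g y)) := by
  have hv : ∀ v : Sym 2 C0, Tendsto (fun n => f n v) atTop (𝓝 (g v)) := by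
    intro v
    refine sym_induction (p := fun v => Tendsto (fun n => f n (v : SymProj 2 C0)) atTop
      (𝓝 (g (v : SymProj 2 C0)))) ?_ ?_ ?_ ?_ v
    · simp only [UniformSpace.Completion.coe_zero, map_zero]
      exact tendsto_const_nhds
    · intro x
      have h1 := quad_cont hP hb (x := x) (z := fun n => R n x) (R_tendsto x)
      rw [hg x]
      refine h1.congr fun n => ?_
      rw [hf n x]
    · intro u w hu hw
      simp only [UniformSpace.Completion.coe_add, map_add]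
      exact hu.add hw
    · intro c u hu
      simp only [UniformSpace.Completion.coe_smul, map_smul]
      exact hu.const_smul c
  rw [Metric.tendsto_atTop]
  intro ε hε
  obtain ⟨v, hvy⟩ := Metric.denseRange_iff.1
    (UniformSpace.Completion.denseRange_coe (α := Sym 2 C0)) y (ε / 3) (by positivity)
  obtain ⟨N, hN⟩ := (Metric.tendsto_atTop.1 (hv v)) (ε / 3) (by positivity)
  refine ⟨N, fun n hn => ?_⟩
  have h1 := hN n hn
  rw [dist_eq_norm] at hvy
  have h2 : |f n y - f n v| ≤ ‖y - v‖ := by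
    rw [← map_sub]
    refine ((f n).le_opNorm _).trans ?_
    nlinarith [norm_nonneg (y - v), hf1 n]
  have h3 : |g y - g v| ≤ ‖y - v‖ := by
    rw [← map_sub]
    refine (g.le_opNorm _).trans ?_
    nlinarith [norm_nonneg (y - v)]
  rw [Real.dist_eq] at h1 ⊢
  rw [abs_lt] at *
  rw [abs_le] at h2 h3
  constructor <;> linarith [h1.1, h1.2, h2.1, h2.2, h3.1, h3.2]

/-- No element of the unit sphere is almost orthogonal to `e₀ ⊗ e₀`. -/
theorem main_estimate (y : SymProj 2 C0) (hy : ‖y‖ = 1)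
    (h1 : ‖((pw 2 (e 0) : Sym 2 C0) : SymProj 2 C0) + y‖ ≤ 1 + 1 / 10000)
    (h2 : ‖((pw 2 (e 0) : Sym 2 C0) : SymProj 2 C0) - y‖ ≤ 1 + 1 / 10000) : False := by
  obtain ⟨g, hg1, hgy⟩ := exists_dual_vector'' ℝ y
  rw [hy] at hgy
  obtain ⟨M, hM⟩ := exists_form g
  have hP : IsQ fun x : C0 => M fun _ => x := ⟨M, fun x => rfl⟩
  have hb : ∀ x : C0, |M fun _ => x| ≤ ‖x‖ ^ 2 := by
    intro x
    rw [← hM]
    have h3 := g.le_opNorm ((pw 2 x : Sym 2 C0) : SymProj 2 C0)
    rw [UniformSpace.Completion.norm_coe] at h3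
    have h4 := norm_pw_le (N := 2) x
    rw [Real.norm_eq_abs] at h3
    nlinarith [norm_nonneg (pw 2 x : Sym 2 C0)]
  choose f hf hf1 hf2 using fun n => claimA h1 h2 (by norm_num) le_rfl hP hb n
  have h3 := claimB (y := y) hg1 (P := fun x => M fun _ => x) hM hP hb hf hf1
  have h4 : g y ≤ 2 / 5 := le_of_tendsto' h3 fun n => (le_abs_self _).trans (hf2 n)
  rw [hgy] at h4
  norm_num at h4

end final

/-- `c₀` is an almost square Banach space whose completed symmetric projective tensor square is not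
almost square (already the single unit vector `e₀ ⊗ e₀` and `ε = 10⁻⁴` are an obstruction). -/
theorem result :
    CompleteSpace (ZeroAtInftyContinuousMap ℕ ℝ) ∧ ASQ (ZeroAtInftyContinuousMap ℕ ℝ) ∧
      ¬ ASQ (SymProj 2 (ZeroAtInftyContinuousMap ℕ ℝ)) ∧
      ∃ u : SymProj 2 (ZeroAtInftyContinuousMap ℕ ℝ), ‖u‖ = 1 ∧
        ¬ ∃ y : SymProj 2 (ZeroAtInftyContinuousMap ℕ ℝ), ‖y‖ = 1 ∧
          ‖u + y‖ ≤ 1 + 1 / 10000 ∧ ‖u - y‖ ≤ 1 + 1 / 10000 := by
  refine ⟨inferInstance, asq_c0, fun h => ?_, ((pw 2 (e 0) : Sym 2 C0) : SymProj 2 C0), norm_pw_e,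
    ?_⟩
  · obtain ⟨y, hy, hy2⟩ := h 1 (fun _ => ((pw 2 (e 0) : Sym 2 C0) : SymProj 2 C0))
      (fun _ => norm_pw_e) (1 / 10000) (by norm_num)
    exact main_estimate y hy (hy2 0).1 (hy2 0).2
  · rintro ⟨y, hy, h1, h2⟩
    exact main_estimate y hy h1 h2

end Pool.Agent.Results.MP_b5276a_an.SymSquareC0
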